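import Mathlib

/-!
Topological part: a Hausdorff ball around a symmetric convex body, all of whose symmetric members
have interior points, is not meagre in the space of symmetric convex bodies with interior points.
Also: two stability facts for the Hausdorff distance of convex bodies.
-/

set_option autoImplicit false

open Set Metric TopologicalSpace Topology

namespace Pool.Agent.P.MP_73fc50_co

variable {V : Type*} [NormedAddCommGroup V] [NormedSpace ℝ V]

/-- The symmetric convex members of `NonemptyCompacts V` form a closed set. -/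
theorem isClosed_symm_convex :
    IsClosed {K : NonemptyCompacts V | Convex ℝ (K : Set V) ∧ ∀ x ∈ (K : Set V), -x ∈ (K : Set V)} := by
  apply isClosed_of_closure_subset
  intro K hK
  have hfin : ∀ L M : NonemptyCompacts V, hausdorffEDist (L : Set V) (M : Set V) ≠ ⊤ := fun L M =>
    hausdorffEDist_ne_top_of_nonempty_of_bounded L.nonempty M.nonempty
      L.isCompact.isBounded M.isCompact.isBounded
  have hKc : IsClosed (K : Set V) := K.isCompact.isClosed
  rw [Metric.mem_closure_iff] at hK
  refine ⟨?_, ?_⟩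
  · intro x hx y hy a b ha hb hab
    rw [← hKc.closure_eq, Metric.mem_closure_iff]
    intro ε hε
    obtain ⟨L, ⟨hLc, -⟩, hL⟩ := hK (ε / 2) (by positivity)
    rw [NonemptyCompacts.dist_eq] at hL
    obtain ⟨x', hx', hxx⟩ := exists_dist_lt_of_hausdorffDist_lt hx hL (hfin K L)
    obtain ⟨y', hy', hyy⟩ := exists_dist_lt_of_hausdorffDist_lt hy hL (hfin K L)
    have hm : a • x' + b • y' ∈ (L : Set V) := hLc hx' hy' ha hb hab
    obtain ⟨z, hz, hzz⟩ := exists_dist_lt_of_hausdorffDist_lt' hm hL (hfin K L)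
    refine ⟨z, hz, ?_⟩
    have h1 : dist (a • x + b • y) (a • x' + b • y') ≤ ε / 2 := by
      rw [dist_eq_norm] at *
      have : a • x + b • y - (a • x' + b • y') = a • (x - x') + b • (y - y') := by
        simp only [smul_sub]; abel
      rw [this]
      calc ‖a • (x - x') + b • (y - y')‖ ≤ ‖a • (x - x')‖ + ‖b • (y - y')‖ := norm_add_le _ _
        _ = a * ‖x - x'‖ + b * ‖y - y'‖ := by
          rw [norm_smul, norm_smul, Real.norm_of_nonneg ha, Real.norm_of_nonneg hb]
        _ ≤ a * (ε / 2) + b * (ε / 2) := by gcongr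
        _ = ε / 2 := by rw [← add_mul, hab, one_mul]
    calc dist (a • x + b • y) z ≤ dist (a • x + b • y) (a • x' + b • y') + dist (a • x' + b • y') z :=
          dist_triangle _ _ _
      _ < ε / 2 + ε / 2 := by rw [dist_comm (a • x' + b • y') z]; linarith
      _ = ε := by ring
  · intro x hx
    rw [← hKc.closure_eq, Metric.mem_closure_iff]
    intro ε hε
    obtain ⟨L, ⟨-, hLs⟩, hL⟩ := hK (ε / 2) (by positivity)
    rw [NonemptyCompacts.dist_eq] at hL
    obtain ⟨x', hx', hxx⟩ := exists_dist_lt_of_hausdorffDist_lt hx hL (hfin K L)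
    obtain ⟨z, hz, hzz⟩ := exists_dist_lt_of_hausdorffDist_lt' (hLs x' hx') hL (hfin K L)
    refine ⟨z, hz, ?_⟩
    calc dist (-x) z ≤ dist (-x) (-x') + dist (-x') z := dist_triangle _ _ _
      _ < ε / 2 + ε / 2 := by rw [dist_neg_neg, dist_comm (-x') z]; linarith
      _ = ε := by ring

/-- A Hausdorff ball in the space of symmetric convex bodies with interior points is not meagre,
as soon as every symmetric convex body in that ball has interior points. -/
theorem not_isMeagre_ball [CompleteSpace V] (C₀ : ConvexBody V)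
    (hs : ∀ x ∈ (C₀ : Set V), -x ∈ (C₀ : Set V)) {ε : ℝ} (hε : 0 < ε)
    (hint : ∀ C : ConvexBody V, dist C C₀ < ε → (interior (C : Set V)).Nonempty)
    (M : Set {K : ConvexBody V // (∀ x ∈ (K : Set V), -x ∈ (K : Set V)) ∧
      (interior (K : Set V)).Nonempty})
    (hM : ∀ C, dist C.1 C₀ < ε → C ∈ M) : ¬ IsMeagre M := by
  intro hmeagre
  let Z : Set (NonemptyCompacts V) :=
    {K | Convex ℝ (K : Set V) ∧ ∀ x ∈ (K : Set V), -x ∈ (K : Set V)}
  have hZ : IsClosed Z := isClosed_symm_convex
  have : CompleteSpace Z := hZ.completeSpace_coe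
  let K₀ : Z := ⟨⟨⟨(C₀ : Set V), C₀.isCompact⟩, C₀.nonempty⟩, C₀.convex, hs⟩
  let U : Set Z := ball K₀ ε
  have : BaireSpace U := (isOpen_ball : IsOpen U).baireSpace
  let toB : Z → ConvexBody V := fun K => ⟨(K.1 : Set V), K.2.1, K.1.isCompact, K.1.nonempty⟩
  have hdist : ∀ K L : Z, dist (toB K) (toB L) = dist K L := fun K L => by
    rw [Subtype.dist_eq, NonemptyCompacts.dist_eq]; rfl
  have hK₀ : toB K₀ = C₀ := rfl
  have hlt : ∀ K : U, dist (toB K.1) C₀ < ε := fun K => by
    rw [← hK₀, hdist]; exact K.2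
  let g : U → {K : ConvexBody V // (∀ x ∈ (K : Set V), -x ∈ (K : Set V)) ∧
      (interior (K : Set V)).Nonempty} := fun K => ⟨toB K.1, K.1.2.2, hint _ (hlt K)⟩
  have hg : Isometry g := Isometry.of_dist_eq fun K L => by
    rw [Subtype.dist_eq, Subtype.dist_eq K L]; exact hdist _ _
  have hrange : range g = {C | dist C.1 C₀ < ε} := by
    ext C
    constructor
    · rintro ⟨K, rfl⟩; exact hlt K
    · intro hC
      let K : Z := ⟨⟨⟨(C.1 : Set V), C.1.isCompact⟩, C.1.nonempty⟩, C.1.convex, C.2.1⟩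
      have hK : toB K = C.1 := rfl
      refine ⟨⟨K, ?_⟩, rfl⟩
      change dist K K₀ < ε
      rw [← hdist, hK, hK₀]; exact hC
  have hopen : IsOpen (range g) := by
    rw [hrange]
    exact isOpen_lt (continuous_subtype_val.dist continuous_const) continuous_const
  have hoe : IsOpenEmbedding g := ⟨hg.isEmbedding, hopen⟩
  have h1 : IsMeagre (g ⁻¹' M) := hmeagre.preimage_of_isOpenMap hoe.continuous hoe.isOpenMap
  have h2 : g ⁻¹' M = univ := eq_univ_of_forall fun K => hM _ (hlt K)
  rw [h2] at h1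
  exact not_isMeagre_of_isOpen isOpen_univ ⟨⟨K₀, mem_ball_self hε⟩, mem_univ _⟩ h1

/-- Inner stability: a point whose closed `2ε`-ball lies in `C₀` lies in every convex body at
Hausdorff distance less than `ε` from `C₀`. -/
theorem mem_of_closedBall_subset (C C₀ : ConvexBody V) {ε : ℝ} (h : dist C C₀ < ε) {x : V}
    (hx : closedBall x (2 * ε) ⊆ (C₀ : Set V)) : x ∈ (C : Set V) := by
  by_contra hxC
  have hε : 0 < ε := lt_of_le_of_lt dist_nonneg h
  obtain ⟨f, u, hf, hu⟩ := geometric_hahn_banach_closed_point C.convex C.isClosed hxC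
  have hf0 : 0 < ‖f‖ := by
    rw [norm_pos_iff]
    rintro rfl
    obtain ⟨a, ha⟩ := C.nonempty
    have := hf a ha
    simp at this hu
    linarith
  obtain ⟨w, hw1, hw2⟩ := f.exists_lt_apply_of_lt_opNorm (r := ‖f‖ / 2) (by linarith)
  obtain ⟨w', hw1', hw2'⟩ : ∃ w' : V, ‖w'‖ < 1 ∧ ‖f‖ / 2 < f w' := by
    rcases le_total 0 (f w) with h0 | h0
    · exact ⟨w, hw1, by rwa [Real.norm_of_nonneg h0] at hw2⟩
    · refine ⟨-w, by simpa using hw1, ?_⟩
      rw [Real.norm_of_nonpos h0] at hw2
      simpa using hw2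
  have hy : x + (2 * ε) • w' ∈ (C₀ : Set V) := by
    apply hx
    rw [mem_closedBall, dist_eq_norm, add_sub_cancel_left, norm_smul,
      Real.norm_of_nonneg (by positivity)]
    nlinarith
  obtain ⟨a, ha, hda⟩ := exists_dist_lt_of_hausdorffDist_lt' hy
    (show hausdorffDist (C : Set V) (C₀ : Set V) < ε from h) ConvexBody.hausdorffEDist_ne_top
  have h1 : f (x + (2 * ε) • w') - f a ≤ ‖f‖ * ε := by
    rw [← map_sub]
    calc f (x + (2 * ε) • w' - a) ≤ ‖f (x + (2 * ε) • w' - a)‖ := Real.le_norm_self _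
      _ ≤ ‖f‖ * ‖x + (2 * ε) • w' - a‖ := f.le_opNorm _
      _ ≤ ‖f‖ * ε := by
        gcongr
        rw [← dist_eq_norm, dist_comm]; exact hda.le
  rw [map_add, map_smul, smul_eq_mul] at h1
  have := hf a ha
  nlinarith

end Pool.Agent.P.MP_73fc50_co
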