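import Mathlib

/-!
First-order lower bound for the determinant near the identity, and the quadratic form
`Q x = ∑ xᵢ² + (∑ xᵢ)²` of the root lattice `A_d`.
-/

set_option autoImplicit false

open Set Metric Topology Matrix Finset

namespace Pool.Agent.P.MP_73fc50_co

variable {d : ℕ}

theorem differentiable_detf :
    Differentiable ℝ (fun H : Fin d → Fin d → ℝ => (1 + Matrix.of H).det) := by
  have : (fun H : Fin d → Fin d → ℝ => (1 + Matrix.of H).det) = fun H =>
      ∑ σ : Equiv.Perm (Fin d), ((Equiv.Perm.sign σ : ℤ) : ℝ) *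
        ∏ i, ((1 : Matrix (Fin d) (Fin d) ℝ) (σ i) i + H (σ i) i) := by
    funext H
    rw [Matrix.det_apply']
    simp [Matrix.add_apply]
  rw [this]
  fun_prop

theorem fderiv_detf (H : Fin d → Fin d → ℝ) :
    fderiv ℝ (fun H : Fin d → Fin d → ℝ => (1 + Matrix.of H).det) 0 H = (Matrix.of H).trace := by
  have h1 : HasDerivAt (fun r : ℝ => (1 + Matrix.of (r • H)).det)
      (fderiv ℝ (fun H : Fin d → Fin d → ℝ => (1 + Matrix.of H).det) 0 H) 0 := by
    have h0 := (differentiable_detf (d := d) 0).hasFDerivAt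
    have hl : HasDerivAt (fun r : ℝ => r • H) H 0 := by
      simpa using (hasDerivAt_id (0 : ℝ)).smul_const H
    have h0' : HasFDerivAt (fun H : Fin d → Fin d → ℝ => (1 + Matrix.of H).det)
        (fderiv ℝ (fun H : Fin d → Fin d → ℝ => (1 + Matrix.of H).det) 0) ((0 : ℝ) • H) := by
      rwa [zero_smul]
    exact h0'.comp_hasDerivAt (0 : ℝ) hl
  have h2 : HasDerivAt (fun r : ℝ => (1 + Matrix.of (r • H)).det) ((Matrix.of H).trace) 0 := by
    set p : Polynomial ℝ := (Matrix.det (1 + (Polynomial.X : Polynomial ℝ) •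
      (Matrix.of H).map Polynomial.C)).divX.divX with hp
    have : (fun r : ℝ => (1 + Matrix.of (r • H)).det) = fun r =>
        1 + (Matrix.of H).trace * r + p.eval r * r ^ 2 := by
      funext r
      rw [hp, ← Matrix.det_one_add_smul r (Matrix.of H)]
      rfl
    rw [this]
    have h3 := ((hasDerivAt_const (0 : ℝ) (1 : ℝ)).add
      ((hasDerivAt_id (0 : ℝ)).const_mul (Matrix.of H).trace)).add
      ((p.hasDerivAt 0).mul (hasDerivAt_pow 2 (0 : ℝ)))
    exact h3.congr_deriv (by simp)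
  exact h1.unique h2

theorem det_lower {ε : ℝ} (hε : 0 < ε) : ∃ ρ : ℝ, 0 < ρ ∧ ∀ (M : Matrix (Fin d) (Fin d) ℝ) (t : ℝ),
    0 ≤ t → t ≤ ρ → (∀ i j, |M i j| ≤ t) → 1 + M.trace - ε * t ≤ (1 + M).det := by
  have h0 := (differentiable_detf (d := d) 0).hasFDerivAt
  have h1 := (hasFDerivAt_iff_isLittleO_nhds_zero.1 h0).def hε
  obtain ⟨ρ, hρ, h2⟩ := Metric.eventually_nhds_iff.1 h1
  refine ⟨ρ / 2, by positivity, fun M t ht htρ hM => ?_⟩
  have hn : ‖(Matrix.of.symm M : Fin d → Fin d → ℝ)‖ ≤ t := by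
    rw [pi_norm_le_iff_of_nonneg ht]
    intro i
    rw [pi_norm_le_iff_of_nonneg ht]
    intro j
    exact hM i j
  have h3 := h2 (y := (Matrix.of.symm M : Fin d → Fin d → ℝ)) (by rw [dist_zero_right]; linarith)
  rw [fderiv_detf] at h3
  simp only [zero_add, Equiv.apply_symm_apply, Matrix.of_zero, add_zero, Matrix.det_one,
    Real.norm_eq_abs] at h3
  have h4 := (abs_le.1 h3).1
  nlinarith

/-- The quadratic form of the root lattice `A_d` in a suitable basis. -/
def Q (x : Fin d → ℝ) : ℝ := ∑ i, x i ^ 2 + (∑ i, x i) ^ 2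

/-- Its Gram matrix. -/
def Q0 (d : ℕ) : Matrix (Fin d) (Fin d) ℝ := 1 + Matrix.of fun _ _ => 1

/-- The inverse Gram matrix. -/
noncomputable def P0 (d : ℕ) : Matrix (Fin d) (Fin d) ℝ :=
  1 - (1 / ((d : ℝ) + 1)) • Matrix.of fun _ _ => 1

theorem P0_mul_Q0 : P0 d * Q0 d = 1 := by
  have hJ : (Matrix.of fun _ _ => 1 : Matrix (Fin d) (Fin d) ℝ) * (Matrix.of fun _ _ => 1) =
      (d : ℝ) • (Matrix.of fun _ _ => 1 : Matrix (Fin d) (Fin d) ℝ) := by
    ext i j; simp [Matrix.mul_apply]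
  unfold P0 Q0
  rw [sub_mul, mul_add, mul_add, Matrix.smul_mul, Matrix.smul_mul, hJ]
  simp only [mul_one, one_mul, smul_smul]
  ext i j
  simp only [Matrix.sub_apply, Matrix.add_apply, Matrix.smul_apply, Matrix.of_apply, smul_eq_mul]
  have : (d : ℝ) + 1 ≠ 0 := by positivity
  field_simp
  ring

theorem Q_eq (x : Fin d → ℝ) : Q x = x ⬝ᵥ (Q0 d *ᵥ x) := by
  unfold Q Q0
  rw [Matrix.add_mulVec, dotProduct_add, Matrix.one_mulVec]
  congr 1
  · simp [dotProduct, sq]
  · simp [dotProduct, Matrix.mulVec, sq, Finset.sum_mul]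

theorem Q_mulVec (A : Matrix (Fin d) (Fin d) ℝ) (x : Fin d → ℝ) :
    Q (A *ᵥ x) = x ⬝ᵥ ((Aᵀ * Q0 d * A) *ᵥ x) := by
  rw [Q_eq, ← Matrix.mulVec_mulVec, ← Matrix.mulVec_mulVec, Matrix.dotProduct_mulVec x Aᵀ,
    Matrix.vecMul_transpose]

theorem Q0_symm : (Q0 d)ᵀ = Q0 d := by
  unfold Q0
  rw [Matrix.transpose_add, Matrix.transpose_one]
  rfl

theorem Q0_diag (i : Fin d) : Q0 d i i = 2 := by
  simp [Q0]; norm_num

theorem Q0_offdiag {i j : Fin d} (h : i ≠ j) : Q0 d i j = 1 := by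
  simp [Q0, h]

theorem abs_Q0_le (i j : Fin d) : |Q0 d i j| ≤ 2 := by
  by_cases h : i = j
  · subst h; rw [Q0_diag]; norm_num
  · rw [Q0_offdiag h]; norm_num

theorem continuous_Q : Continuous (Q : (Fin d → ℝ) → ℝ) := by
  unfold Q; fun_prop

theorem Q_smul (c : ℝ) (x : Fin d → ℝ) : Q (c • x) = c ^ 2 * Q x := by
  unfold Q
  simp only [Pi.smul_apply, smul_eq_mul, mul_pow, ← Finset.mul_sum]
  ring

theorem Q_neg (x : Fin d → ℝ) : Q (-x) = Q x := by
  have := Q_smul (-1) x
  simpa using this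

theorem sq_le_Q (x : Fin d → ℝ) (i : Fin d) : x i ^ 2 ≤ Q x := by
  unfold Q
  have := Finset.single_le_sum (f := fun i => x i ^ 2) (fun i _ => sq_nonneg (x i))
    (Finset.mem_univ i)
  nlinarith [sq_nonneg (∑ i, x i)]

theorem convex_Q_le (c : ℝ) : Convex ℝ {x : Fin d → ℝ | Q x ≤ c} := by
  intro x hx y hy a b ha hb hab
  simp only [mem_ofPred_eq] at *
  have key : ∀ s t : ℝ, (a * s + b * t) ^ 2 ≤ a * s ^ 2 + b * t ^ 2 := by
    intro s t
    have hb' : b = 1 - a := by linarith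
    subst hb'
    nlinarith [mul_nonneg ha hb, sq_nonneg (s - t), mul_nonneg (mul_nonneg ha hb) (sq_nonneg (s - t))]
  have h1 : Q (a • x + b • y) ≤ a * Q x + b * Q y := by
    unfold Q
    simp only [Pi.add_apply, Pi.smul_apply, smul_eq_mul, Finset.sum_add_distrib, ← Finset.mul_sum]
    have h2 : ∑ i, (a * x i + b * y i) ^ 2 ≤ ∑ i, (a * x i ^ 2 + b * y i ^ 2) :=
      Finset.sum_le_sum fun i _ => key _ _
    rw [Finset.sum_add_distrib, ← Finset.mul_sum, ← Finset.mul_sum] at h2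
    have h3 := key (∑ i, x i) (∑ i, y i)
    nlinarith
  calc Q (a • x + b • y) ≤ a * Q x + b * Q y := h1
    _ ≤ a * c + b * c := by gcongr
    _ = c := by rw [← add_mul, hab, one_mul]

theorem isCompact_Q_le (c : ℝ) : IsCompact {x : Fin d → ℝ | Q x ≤ c} := by
  apply Metric.isCompact_of_isClosed_isBounded (isClosed_le continuous_Q continuous_const)
  refine (Metric.isBounded_closedBall (x := 0) (r := |c| + 1)).subset fun x hx => ?_
  rw [mem_closedBall_zero_iff, pi_norm_le_iff_of_nonneg (by positivity)]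
  intro i
  have h1 := (sq_le_Q x i).trans hx
  rw [Real.norm_eq_abs]
  have h2 := le_abs_self c
  have h3 := abs_nonneg c
  apply abs_le_of_sq_le_sq' _ (by positivity) |> abs_le.2
  nlinarith

/-- The integer vectors `f a - f b`, `f none = 0`, `f (some i) = eᵢ`. -/
def root (p : Option (Fin d) × Option (Fin d)) : Fin d → ℤ := fun i =>
  (if some i = p.1 then 1 else 0) - (if some i = p.2 then 1 else 0)

theorem exists_root (z : Fin d → ℤ) (hz : Q (fun i => (z i : ℝ)) < 3) : ∃ p, z = root p := by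
  let w : Option (Fin d) → ℤ := fun a => a.elim (-∑ i, z i) z
  have hsum : ∑ a, w a = 0 := by simp [w, Fintype.sum_option]
  have hsq : ∑ a, w a ^ 2 ≤ 2 := by
    have : ((∑ a, w a ^ 2 : ℤ) : ℝ) < 3 := by
      simp only [w, Fintype.sum_option, Option.elim_none, Option.elim_some]
      unfold Q at hz
      push_cast
      linarith [neg_sq (∑ i, (z i : ℝ))]
    have : (∑ a, w a ^ 2 : ℤ) < 3 := by exact_mod_cast this
    omega
  by_cases h0 : ∀ a, w a = 0
  · refine ⟨(none, none), funext fun i => ?_⟩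
    simpa [root, w] using h0 (some i)
  push Not at h0
  have hpos : ∃ a, 0 < w a := by
    by_contra h
    push Not at h
    obtain ⟨a, ha⟩ := h0
    exact ha ((Finset.sum_eq_zero_iff_of_nonpos (fun a _ => h a)).1 hsum a (Finset.mem_univ a))
  have hneg : ∃ a, w a < 0 := by
    by_contra h
    push Not at h
    obtain ⟨a, ha⟩ := h0
    exact ha ((Finset.sum_eq_zero_iff_of_nonneg (fun a _ => h a)).1 hsum a (Finset.mem_univ a))
  obtain ⟨a, ha⟩ := hpos
  obtain ⟨b, hb⟩ := hneg
  have hab : a ≠ b := by rintro rfl; omega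
  have h2 : w a ^ 2 + w b ^ 2 ≤ 2 := by
    have := Finset.sum_le_sum_of_subset_of_nonneg (f := fun a => w a ^ 2)
      (Finset.subset_univ {a, b}) (fun i _ _ => sq_nonneg _)
    rw [Finset.sum_pair hab] at this
    omega
  have ha1 : w a = 1 := by nlinarith
  have hb1 : w b = -1 := by nlinarith
  have hc : ∀ c, c ≠ a → c ≠ b → w c = 0 := by
    intro c hca hcb
    have := Finset.sum_le_sum_of_subset_of_nonneg (f := fun a => w a ^ 2)
      (Finset.subset_univ {c, a, b}) (fun i _ _ => sq_nonneg _)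
    rw [Finset.sum_insert (by simp [hca, hcb]), Finset.sum_pair hab, ha1, hb1] at this
    nlinarith
  refine ⟨(a, b), funext fun i => ?_⟩
  have hw : z i = w (some i) := rfl
  rw [hw]
  unfold root
  by_cases h1 : some i = a
  · have h2 : some i ≠ b := by rw [h1]; exact hab
    simp [h1, ha1, hab]
  · by_cases h2 : some i = b
    · simp [h2, hb1, hab.symm]
    · simp [h1, h2, hc _ h1 h2]

theorem two_le_Q (z : Fin d → ℤ) (hz : z ≠ 0) : 2 ≤ Q (fun i => (z i : ℝ)) := by
  obtain ⟨i, hi⟩ := Function.ne_iff.1 hz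
  replace hi : z i ≠ 0 := hi
  have h1 : (2 : ℤ) ≤ ∑ i, z i ^ 2 + (∑ i, z i) ^ 2 := by
    by_cases h : ∃ j, j ≠ i ∧ z j ≠ 0
    · obtain ⟨j, hji, hj⟩ := h
      have := Finset.sum_le_sum_of_subset_of_nonneg (f := fun a => z a ^ 2)
        (Finset.subset_univ {j, i}) (fun i _ _ => sq_nonneg _)
      rw [Finset.sum_pair hji] at this
      have h2 : 0 < z i ^ 2 := by positivity
      have h3 : 0 < z j ^ 2 := by positivity
      nlinarith [sq_nonneg (∑ i, z i)]
    · push Not at h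
      have h2 : ∑ j, z j = z i := Finset.sum_eq_single i (fun j _ hj => h j hj) (by simp)
      have h3 := Finset.single_le_sum (f := fun a => z a ^ 2) (fun i _ => sq_nonneg _)
        (Finset.mem_univ i)
      have h4 : 0 < z i ^ 2 := by positivity
      rw [h2]
      omega
  unfold Q
  beta_reduce
  exact_mod_cast h1

end Pool.Agent.P.MP_73fc50_co
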