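import Mathlib
import Pool.Agent.P.MP_73fc50_co.Det

/-!
The trapping argument: every set `S` squeezed between `{Q < 2 - η}` and `{Q ≤ 2 + η}` has a
locally minimal admissible lattice close (up to isometry of `Q`) to `ℤ^d`, and such a lattice has
at most `(d + 1)²` points in `S`.
-/

set_option autoImplicit false

open Set Metric Topology Matrix Finset Filter

namespace Pool.Agent.P.MP_73fc50_co

variable {d : ℕ}

/-- Deviation of the Gram matrix of `A ℤ^d` from that of `ℤ^d`. -/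
def dev (A : Matrix (Fin d) (Fin d) ℝ) : Matrix (Fin d) (Fin d) ℝ := Aᵀ * Q0 d * A - Q0 d

theorem continuous_dev : Continuous (dev : Matrix (Fin d) (Fin d) ℝ → _) := by
  unfold dev
  exact ((continuous_id.matrix_transpose.matrix_mul continuous_const).matrix_mul continuous_id).sub
    continuous_const

theorem dev_symm (A : Matrix (Fin d) (Fin d) ℝ) (i j : Fin d) : dev A i j = dev A j i := by
  have : (dev A)ᵀ = dev A := by
    unfold dev
    rw [Matrix.transpose_sub, Matrix.transpose_mul, Matrix.transpose_mul, Matrix.transpose_transpose,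
      Q0_symm, Matrix.mul_assoc]
  conv_lhs => rw [← this]
  rfl

theorem Q_mulVec_dev (A : Matrix (Fin d) (Fin d) ℝ) (x : Fin d → ℝ) :
    Q (A *ᵥ x) = Q x + x ⬝ᵥ (dev A *ᵥ x) := by
  rw [Q_mulVec, Q_eq, dev, Matrix.sub_mulVec, dotProduct_sub]
  ring

theorem det_sq_eq (A : Matrix (Fin d) (Fin d) ℝ) : (1 + P0 d * dev A).det = A.det ^ 2 := by
  have h1 : 1 + P0 d * dev A = P0 d * (Aᵀ * Q0 d * A) := by
    rw [dev, Matrix.mul_sub, P0_mul_Q0]; abel
  have h2 : (P0 d).det * (Q0 d).det = 1 := by rw [← Matrix.det_mul, P0_mul_Q0, Matrix.det_one]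
  rw [h1, Matrix.det_mul, Matrix.det_mul, Matrix.det_mul, Matrix.det_transpose]
  linear_combination (A.det ^ 2) * h2

theorem P0_mul_apply (H : Matrix (Fin d) (Fin d) ℝ) (i j : Fin d) :
    (P0 d * H) i j = H i j - (1 / ((d : ℝ) + 1)) * ∑ k, H k j := by
  unfold P0
  rw [Matrix.sub_mul, Matrix.one_mul, Matrix.smul_mul]
  simp [Matrix.mul_apply]

theorem Q_single (i : Fin d) : Q (Pi.single i (1 : ℝ)) = 2 := by
  rw [Q_eq]; simp [Q0_diag]

theorem Q_single_sub {i j : Fin d} (h : i ≠ j) :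
    Q (Pi.single i (1 : ℝ) - Pi.single j (1 : ℝ)) = 2 := by
  rw [Q_eq]
  simp [Matrix.mulVec_sub, Q0_diag, Q0_offdiag h, Q0_offdiag h.symm]
  norm_num

/-- The key inequality (perfection and eutaxy of `A_d`). -/
theorem exists_det_bound (d : ℕ) : ∃ ρ : ℝ, 0 < ρ ∧ ∀ (A : Matrix (Fin d) (Fin d) ℝ) (η r : ℝ),
    0 ≤ η → 0 ≤ r → r ≤ ρ → (∀ i j, |dev A i j| ≤ r) →
    (∀ z : Fin d → ℤ, z ≠ 0 → 2 - η ≤ Q (A *ᵥ fun i => (z i : ℝ))) →
    ∃ s : ℝ, 0 ≤ s ∧ (∀ i j, |dev A i j| ≤ s) ∧
      1 + s / (2 * (d + 1)) - (d + 1) * η ≤ A.det ^ 2 := by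
  obtain ⟨ρ, hρ, hdet⟩ := det_lower (d := d) (ε := 1 / (4 * (d + 1))) (by positivity)
  refine ⟨ρ / 2, by positivity, fun A η r hη hr hrρ hA hadm => ?_⟩
  set H := dev A with hH
  have hd1 : (0 : ℝ) < d + 1 := by positivity
  have ha : ∀ i, 0 ≤ H i i + η := by
    intro i
    have h1 := hadm (Pi.single i 1) (by simp)
    have h2 : (fun k => ((Pi.single i 1 : Fin d → ℤ) k : ℝ)) = Pi.single i 1 := by
      funext k; by_cases h : k = i <;> simp [h]
    rw [h2, Q_mulVec_dev, Q_single] at h1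
    simp at h1
    linarith
  have hb : ∀ i j, 0 ≤ H i i + H j j - 2 * H i j + η := by
    intro i j
    by_cases hij : i = j
    · subst hij; linarith
    have h1 := hadm (Pi.single i 1 - Pi.single j 1) (by
      intro h
      have := congrFun h i
      simp [hij] at this)
    have h2 : (fun k => ((Pi.single i 1 - Pi.single j 1 : Fin d → ℤ) k : ℝ)) =
        Pi.single i 1 - Pi.single j 1 := by
      funext k
      simp only [Pi.sub_apply, Int.cast_sub, Pi.single_apply]
      split_ifs <;> simp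
    rw [h2, Q_mulVec_dev, Q_single_sub hij] at h1
    simp [Matrix.mulVec_sub] at h1
    have h3 := dev_symm A i j
    rw [← hH] at h1 h3
    linarith
  set T : ℝ := ∑ i, (H i i + η) + (1 / 2) * ∑ i, ∑ j, (H i i + H j j - 2 * H i j + η) with hT
  have hS1 : 0 ≤ ∑ i, (H i i + η) := Finset.sum_nonneg fun i _ => ha i
  have hS2 : 0 ≤ ∑ i, ∑ j, (H i i + H j j - 2 * H i j + η) :=
    Finset.sum_nonneg fun i _ => Finset.sum_nonneg fun j _ => hb i j
  have haT : ∀ i, H i i + η ≤ T := by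
    intro i
    have := Finset.single_le_sum (f := fun i => H i i + η) (fun i _ => ha i) (Finset.mem_univ i)
    linarith
  have hbT : ∀ i j, H i i + H j j - 2 * H i j + η ≤ 2 * T := by
    intro i j
    have h1 := Finset.single_le_sum (f := fun j => H i i + H j j - 2 * H i j + η)
      (fun j _ => hb i j) (Finset.mem_univ j)
    have h2 := Finset.single_le_sum (f := fun i => ∑ j, (H i i + H j j - 2 * H i j + η))
      (fun i _ => Finset.sum_nonneg fun j _ => hb i j) (Finset.mem_univ i)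
    linarith
  have hHT : ∀ i j, |H i j| ≤ T + η := by
    intro i j
    rw [abs_le]
    constructor
    · linarith [ha i, ha j, hbT i j]
    · linarith [haT i, haT j, hb i j]
  have hT0 : 0 ≤ T := by linarith
  have htr : ((d : ℝ) + 1) * (P0 d * H).trace = T - η * (d + d ^ 2 / 2) := by
    simp only [Matrix.trace, Matrix.diag_apply, P0_mul_apply, hT, Finset.sum_add_distrib,
      Finset.sum_sub_distrib, Finset.sum_const, Finset.card_univ, Fintype.card_fin, nsmul_eq_mul,
      ← Finset.mul_sum]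
    rw [Finset.sum_comm (f := fun i k => H k i)]
    field_simp
    ring
  refine ⟨min r (T + η), le_min hr (by linarith), fun i j => le_min (hA i j) (hHT i j), ?_⟩
  set s := min r (T + η) with hs
  have hs0 : 0 ≤ s := le_min hr (by linarith)
  have hsr : s ≤ r := min_le_left _ _
  have hsT : s ≤ T + η := min_le_right _ _
  have hHs : ∀ i j, |H i j| ≤ s := fun i j => le_min (hA i j) (hHT i j)
  have hM : ∀ i j, |(P0 d * H) i j| ≤ 2 * s := by
    intro i j
    rw [P0_mul_apply]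
    have h1 : |∑ k, H k j| ≤ d * s := by
      calc |∑ k, H k j| ≤ ∑ k, |H k j| := Finset.abs_sum_le_sum_abs _ _
        _ ≤ ∑ _k : Fin d, s := Finset.sum_le_sum fun k _ => hHs k j
        _ = d * s := by simp
    have h2 : |(1 / ((d : ℝ) + 1)) * ∑ k, H k j| ≤ s := by
      rw [abs_mul, abs_of_pos (by positivity), one_div, inv_mul_le_iff₀ hd1]
      nlinarith
    calc |H i j - (1 / ((d : ℝ) + 1)) * ∑ k, H k j|
        ≤ |H i j| + |(1 / ((d : ℝ) + 1)) * ∑ k, H k j| := abs_sub _ _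
      _ ≤ 2 * s := by linarith [hHs i j]
  have h1 := hdet (P0 d * H) (2 * s) (by linarith) (by linarith) hM
  rw [hH, det_sq_eq, ← hH] at h1
  refine le_trans ?_ h1
  have h2 : s / (d + 1) - (d + 1) * η ≤ (P0 d * H).trace := by
    rw [← mul_le_mul_iff_right₀ hd1, htr, mul_sub, mul_div_cancel₀ _ hd1.ne']
    have : (0 : ℝ) ≤ d := by positivity
    nlinarith [mul_nonneg hη this, mul_nonneg hη (sq_nonneg (d : ℝ))]
  have h3 : s / (2 * (d + 1)) = s / (d + 1) - 1 / (4 * (d + 1)) * (2 * s) := by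
    field_simp; ring
  linarith

theorem Q_mulVec_lower {A : Matrix (Fin d) (Fin d) ℝ} {r : ℝ} (hr : 0 ≤ r)
    (hA : ∀ i j, |dev A i j| ≤ r) (x : Fin d → ℝ) : (1 - r * d) * Q x ≤ Q (A *ᵥ x) := by
  rw [Q_mulVec_dev]
  have h1 : -(r * d * ∑ i, x i ^ 2) ≤ x ⬝ᵥ (dev A *ᵥ x) := by
    have h2 : ∀ i j, -(r * ((x i ^ 2 + x j ^ 2) / 2)) ≤ x i * (dev A i j * x j) := by
      intro i j
      have h3 : |x i * (dev A i j * x j)| ≤ r * ((x i ^ 2 + x j ^ 2) / 2) := by
        rw [abs_mul, abs_mul, ← mul_assoc, mul_comm |x i|, mul_assoc]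
        apply mul_le_mul (hA i j) _ (by positivity) hr
        nlinarith [sq_nonneg (|x i| - |x j|), sq_abs (x i), sq_abs (x j)]
      exact (abs_le.1 h3).1
    calc -(r * d * ∑ i, x i ^ 2) = ∑ i, ∑ j, -(r * ((x i ^ 2 + x j ^ 2) / 2)) := by
          simp only [Finset.sum_neg_distrib, ← Finset.mul_sum, ← Finset.sum_div,
            Finset.sum_add_distrib, Finset.sum_const, Finset.card_univ, Fintype.card_fin,
            nsmul_eq_mul]
          ring
      _ ≤ ∑ i, ∑ j, x i * (dev A i j * x j) :=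
          Finset.sum_le_sum fun i _ => Finset.sum_le_sum fun j _ => h2 i j
      _ = x ⬝ᵥ (dev A *ᵥ x) := by simp [dotProduct, Matrix.mulVec, Finset.mul_sum]
  have h4 : ∑ i, x i ^ 2 ≤ Q x := by unfold Q; nlinarith [sq_nonneg (∑ i, x i)]
  have h5 : 0 ≤ r * d := by positivity
  nlinarith [mul_le_mul_of_nonneg_left h4 h5]

theorem isCompact_dev_le {r : ℝ} (hr : r ≤ 1) :
    IsCompact {A : Matrix (Fin d) (Fin d) ℝ | ∀ i j, |dev A i j| ≤ r} := by
  have hK : IsCompact {A : Matrix (Fin d) (Fin d) ℝ | ∀ i j, A i j ∈ Icc (-2 : ℝ) 2} := by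
    have := isCompact_univ_pi (fun _ : Fin d => isCompact_univ_pi
      (fun _ : Fin d => (isCompact_Icc : IsCompact (Icc (-2 : ℝ) 2))))
    have h2 : {A : Matrix (Fin d) (Fin d) ℝ | ∀ i j, A i j ∈ Icc (-2 : ℝ) 2} =
        (Set.pi univ fun _ : Fin d => Set.pi univ fun _ : Fin d => Icc (-2 : ℝ) 2) := by
      ext A
      exact ⟨fun h i _ j _ => h i j, fun h i j => h i (mem_univ _) j (mem_univ _)⟩
    rw [h2]
    exact this
  apply hK.of_isClosed_subset
  · simp only [ofPred_forall]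
    exact isClosed_iInter fun i => isClosed_iInter fun j =>
      isClosed_le ((continuous_dev.matrix_elem i j).abs) continuous_const
  · intro A hA i j
    have h1 := Q_mulVec_dev A (Pi.single j 1)
    rw [Q_single] at h1
    have h2 := sq_le_Q (A *ᵥ Pi.single j 1) i
    simp at h1 h2
    have h3 := (abs_le.1 (hA j j)).2
    constructor <;> nlinarith

theorem exists_local_min (hd : 3 ≤ d) : ∃ η : ℝ, 0 < η ∧ ∀ S : Set (Fin d → ℝ),
    (∀ x, Q x < 2 - η → x ∈ interior S) → (∀ x ∈ S, Q x ≤ 2 + η) →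
    ∃ A : Matrix (Fin d) (Fin d) ℝ,
      A.det ≠ 0 ∧
      (∀ z : Fin d → ℤ, z ≠ 0 → A.mulVec (fun i => (z i : ℝ)) ∉ interior S) ∧
      (∃ ε : ℝ, 0 < ε ∧ ∀ B : Matrix (Fin d) (Fin d) ℝ,
        (∀ i j, |B i j - A i j| < ε) → B.det ≠ 0 →
        (∀ z : Fin d → ℤ, z ≠ 0 → B.mulVec (fun i => (z i : ℝ)) ∉ interior S) →
        |A.det| ≤ |B.det|) ∧
      Set.ncard {v : Fin d → ℝ | v ≠ 0 ∧ v ∈ S ∧
        ∃ z : Fin d → ℤ, v = A.mulVec (fun i => (z i : ℝ))} ≠ 2 * d ^ 2 := by
  obtain ⟨ρ, hρ, hkey⟩ := exists_det_bound d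
  have hd0 : (3 : ℝ) ≤ d := by exact_mod_cast hd
  set r : ℝ := min ρ (1 / (6 * d)) with hr
  have hr0 : 0 < r := lt_min hρ (by positivity)
  have hrρ : r ≤ ρ := min_le_left _ _
  have hrd : r * d ≤ 1 / 6 := by
    have : r ≤ 1 / (6 * d) := min_le_right _ _
    rw [le_div_iff₀ (by positivity)] at this
    linarith
  have hr1 : r ≤ 1 := by nlinarith
  have hev : ∀ᶠ η in 𝓝[>] (0 : ℝ), 0 < η ∧ 2 * ((1 + η) ^ 2 - 1) < r ∧
      (1 + η) ^ (2 * d) - 1 + (d + 1) * η < r / (2 * (d + 1)) ∧ (d + 1) * η < 1 ∧ η < 1 / 2 := by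
    have h0 : ∀ᶠ η in 𝓝[>] (0 : ℝ), 0 < η := self_mem_nhdsWithin
    refine h0.and (Filter.Eventually.filter_mono nhdsWithin_le_nhds ?_)
    refine Filter.Eventually.and ?_ (Filter.Eventually.and ?_ (Filter.Eventually.and ?_ ?_))
    · exact (Continuous.continuousAt (by fun_prop)).eventually_lt continuousAt_const (by simpa)
    · exact (Continuous.continuousAt (by fun_prop)).eventually_lt continuousAt_const
        (by simp; positivity)
    · exact (Continuous.continuousAt (by fun_prop)).eventually_lt continuousAt_const (by simp)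
    · exact (Continuous.continuousAt (by fun_prop)).eventually_lt continuousAt_const (by simp)
  obtain ⟨η, hη, h1, h2, h3, h4⟩ := hev.exists
  refine ⟨η, hη, fun S hS1 hS2 => ?_⟩
  let F : Set (Matrix (Fin d) (Fin d) ℝ) := {A | ∀ i j, |dev A i j| ≤ r} ∩
    {A | ∀ z : Fin d → ℤ, z ≠ 0 → A.mulVec (fun i => (z i : ℝ)) ∉ interior S}
  have hFc : IsCompact F := by
    apply (isCompact_dev_le hr1).inter_right
    simp only [ofPred_forall]
    refine isClosed_iInter fun z => isClosed_iInter fun _ => ?_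
    exact isOpen_interior.isClosed_compl.preimage
      (continuous_id.matrix_mulVec (continuous_const (y := fun i => (z i : ℝ))))
  have hA1 : ((1 + η) • (1 : Matrix (Fin d) (Fin d) ℝ)) ∈ F := by
    constructor
    · intro i j
      have : dev ((1 + η) • (1 : Matrix (Fin d) (Fin d) ℝ)) = ((1 + η) ^ 2 - 1) • Q0 d := by
        unfold dev
        rw [Matrix.transpose_smul, Matrix.transpose_one, Matrix.smul_mul, Matrix.mul_smul,
          Matrix.one_mul, Matrix.mul_one, smul_smul, sub_smul, one_smul, sq]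
      rw [this, Matrix.smul_apply, smul_eq_mul, abs_mul, abs_of_nonneg (by nlinarith)]
      have h5 := abs_Q0_le i j
      have h6 : 0 ≤ (1 + η) ^ 2 - 1 := by nlinarith
      nlinarith [mul_le_mul_of_nonneg_left h5 h6]
    · intro z hz hmem
      have h5 := hS2 _ (interior_subset hmem)
      rw [Matrix.smul_mulVec, Matrix.one_mulVec, Q_smul] at h5
      have h6 := two_le_Q z hz
      nlinarith
  obtain ⟨A, hAF, hAmin⟩ := hFc.exists_isMinOn ⟨_, hA1⟩
    (f := fun A => |A.det|) (continuous_id.matrix_det.abs).continuousOn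
  have hadm : ∀ z : Fin d → ℤ, z ≠ 0 → 2 - η ≤ Q (A *ᵥ fun i => (z i : ℝ)) := by
    intro z hz
    by_contra h
    exact hAF.2 z hz (hS1 _ (not_le.1 h))
  obtain ⟨s, hs0, hs, hsdet⟩ := hkey A η r hη.le hr0.le hrρ hAF.1 hadm
  have hle : A.det ^ 2 ≤ (1 + η) ^ (2 * d) := by
    have h5 : |A.det| ≤ |((1 + η) • (1 : Matrix (Fin d) (Fin d) ℝ)).det| := hAmin hA1
    rw [Matrix.det_smul, Matrix.det_one, mul_one, Fintype.card_fin] at h5
    rw [mul_comm, pow_mul]
    exact sq_le_sq.2 h5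
  have hsr : s < r := by
    have : s / (2 * (d + 1)) < r / (2 * (d + 1)) := by linarith
    rwa [div_lt_div_iff_of_pos_right (by positivity)] at this
  refine ⟨A, ?_, hAF.2, ?_, ?_⟩
  · intro h0
    have : 0 ≤ s / (2 * (d + 1)) := by positivity
    rw [h0] at hsdet
    nlinarith
  · have hopen : IsOpen {B : Fin d → Fin d → ℝ | ∀ i j, |dev (Matrix.of B) i j| < r} := by
      simp only [ofPred_forall]
      exact isOpen_iInter_of_finite fun i => isOpen_iInter_of_finite fun j =>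
        isOpen_lt ((continuous_dev.matrix_elem i j).abs) continuous_const
    obtain ⟨ε, hε, hball⟩ := Metric.isOpen_iff.1 hopen (Matrix.of.symm A)
      (fun i j => (hs i j).trans_lt hsr)
    refine ⟨ε, hε, fun B hB _ hBadm => hAmin (⟨fun i j => ?_, hBadm⟩ : B ∈ F)⟩
    have : (Matrix.of.symm B : Fin d → Fin d → ℝ) ∈ ball (Matrix.of.symm A) ε := by
      rw [mem_ball, dist_pi_lt_iff hε]
      intro i
      rw [dist_pi_lt_iff hε]
      intro j
      exact hB i j
    exact (hball this i j).le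
  · apply ne_of_lt
    have hsub : {v : Fin d → ℝ | v ≠ 0 ∧ v ∈ S ∧
        ∃ z : Fin d → ℤ, v = A.mulVec (fun i => (z i : ℝ))} ⊆
        (fun p : Option (Fin d) × Option (Fin d) => A.mulVec (fun i => (root p i : ℝ))) '' univ := by
      rintro v ⟨-, hvS, z, rfl⟩
      have h5 := hS2 _ hvS
      have h6 := Q_mulVec_lower hr0.le hAF.1 (fun i => (z i : ℝ))
      have h7 : Q (fun i => (z i : ℝ)) < 3 := by
        by_contra h
        nlinarith [not_lt.1 h]
      obtain ⟨p, rfl⟩ := exists_root z h7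
      exact ⟨p, mem_univ _, rfl⟩
    calc _ ≤ _ := Set.ncard_le_ncard hsub (finite_univ.image _)
      _ ≤ (univ : Set (Option (Fin d) × Option (Fin d))).ncard := Set.ncard_image_le finite_univ
      _ = (d + 1) * (d + 1) := by simp [Set.ncard_univ]
      _ < 2 * d ^ 2 := by nlinarith

end Pool.Agent.P.MP_73fc50_co
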